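import Mathlib

set_option autoImplicit false
open Pointwise

namespace Pool.Agent.Results.MP_c21415_co.EveryAlpha

open RegularWreathProduct

/-- The base group: cyclic of order `N`, written multiplicatively. -/
abbrev D (N : ℕ) : Type := Multiplicative (ZMod N)

/-- The cyclic group of order `r + 1`. -/
abbrev Q (r : ℕ) : Type := Multiplicative (ZMod (r + 1))

/-- The wreath product. -/
abbrev W (N r : ℕ) : Type := RegularWreathProduct (D N) (Q r)

/-- The generator of `Q`. -/
def t (r : ℕ) : Q r := Multiplicative.ofAdd 1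

/-- The shift element. -/
def sh (N r : ℕ) : W N r := ⟨1, t r⟩

/-- Elements supported at the identity coordinate. -/
def h0 (N r : ℕ) (d : D N) : W N r := ⟨fun q => if q = 1 then d else 1, 1⟩

/-- Membership predicate for the subgroup `P`. -/
def PA (N r : ℕ) (g : W N r) : Prop := g.right = 1 ∧ g.left (t r ^ r) = 1

lemma t_pow_inj (r : ℕ) {i j : ℕ} (hi : i ≤ r) (hj : j ≤ r) (h : t r ^ i = t r ^ j) : i = j := by
  have h1 := congrArg Multiplicative.toAdd h
  simp only [t, toAdd_pow, toAdd_ofAdd, nsmul_eq_mul, mul_one] at h1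
  have h2 : (i : ZMod (r + 1)).val = (j : ZMod (r + 1)).val := by rw [h1]
  rwa [ZMod.val_natCast_of_lt (by omega), ZMod.val_natCast_of_lt (by omega)] at h2

lemma t_pow_ne (r : ℕ) {i : ℕ} (hi : i < r) : t r ^ i ≠ t r ^ r := by
  intro h
  exact hi.ne (t_pow_inj r hi.le le_rfl h)

lemma sh_pow (N r i : ℕ) : sh N r ^ i = ⟨1, t r ^ i⟩ := by
  induction i with
  | zero => rfl
  | succ i ih =>
    rw [pow_succ, ih]
    ext y
    · simp [sh]
    · simp [sh, pow_succ]

lemma PA_mul (N r : ℕ) (g g' : W N r) (hg : PA N r g) (hg' : PA N r g') :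
    PA N r (g * g') := by
  obtain ⟨h1, h2⟩ := hg
  obtain ⟨h1', h2'⟩ := hg'
  refine ⟨by simp [h1, h1'], by simp [h1, h2, h2']⟩

lemma conj_h0 (N r i : ℕ) (hi : i < r) (d : D N) :
    ∃ f : W N r, PA N r f ∧ sh N r ^ i * h0 N r d = f * sh N r ^ i := by
  refine ⟨⟨fun q => if q = t r ^ i then d else 1, 1⟩, ⟨rfl, ?_⟩, ?_⟩
  · have := (t_pow_ne r hi).symm
    simp [this]
  · rw [sh_pow]
    ext y
    · have : ((t r ^ i)⁻¹ * y = 1) ↔ y = t r ^ i := by
        constructor
        · intro h; have := congrArg (fun z => t r ^ i * z) h; simpa using this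
        · intro h; simp [h]
      simp [h0, this]
    · simp [h0]

/-- key injectivity -/
lemma key_inj (N r : ℕ) (g g' : W N r) (d d' : D N) (hg : PA N r g) (hg' : PA N r g')
    (h : g * (sh N r ^ r * h0 N r d) = g' * (sh N r ^ r * h0 N r d')) :
    g = g' ∧ d = d' := by
  obtain ⟨h1, h2⟩ := hg
  obtain ⟨h1', h2'⟩ := hg'
  rw [sh_pow] at h
  have hl := congrArg (fun z : W N r => z.left (t r ^ r)) h
  have hd : d = d' := by
    simpa [h0, h1, h2, h1', h2'] using hl
  subst hd
  exact ⟨mul_right_cancel h, rfl⟩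

/-- The construction: `A` is the union of `m` cosets of the subgroup `P`; conditions on all words
of length at most `k` in `B`, and growth at length `m + k + 1`. -/
theorem construction (k m K : ℕ) (hm : 1 ≤ m) :
    ∃ (G : Type) (_ : Group G) (_ : Finite G) (_ : DecidableEq G) (A B : Finset G),
      A.Nonempty ∧ (1 : G) ∈ B ∧
      (∀ j ≤ k, ∀ w ∈ B ^ j, m * (A * {w} * B).card ≤ (m + 1) * A.card) ∧
      ∀ h : ℕ, m + k + 1 ≤ h → ∀ X ⊆ A, K * X.card ≤ (X * B ^ h).card := by
  classical
  let r := m + k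
  let N := m * K + 1
  have : NeZero N := ⟨Nat.succ_ne_zero _⟩
  have : Fintype (W N r) := Fintype.ofFinite _
  let P : Finset (W N r) := Finset.univ.filter (fun g => PA N r g)
  let A : Finset (W N r) := P * (Finset.range m).image (fun i => sh N r ^ i)
  let B : Finset (W N r) := insert (sh N r) (Finset.univ.image (h0 N r))
  have memP : ∀ g, g ∈ P ↔ PA N r g := by intro g; simp [P]
  have memA : ∀ g, g ∈ A ↔ ∃ f, PA N r f ∧ ∃ i < m, g = f * sh N r ^ i := by
    intro g
    constructor
    · intro hg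
      obtain ⟨f, hf, s, hs, rfl⟩ := Finset.mem_mul.mp hg
      obtain ⟨i, hi, rfl⟩ := Finset.mem_image.mp hs
      exact ⟨f, (memP f).mp hf, i, Finset.mem_range.mp hi, rfl⟩
    · rintro ⟨f, hf, i, hi, rfl⟩
      exact Finset.mul_mem_mul ((memP f).mpr hf)
        (Finset.mem_image.mpr ⟨i, Finset.mem_range.mpr hi, rfl⟩)
  have memB : ∀ g, g ∈ B ↔ g = sh N r ∨ ∃ d, h0 N r d = g := by intro g; simp [B]
  have one_h0 : h0 N r 1 = 1 := by
    ext y
    · simp [h0]
    · simp [h0]
  have onePA : PA N r 1 := ⟨rfl, rfl⟩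
  have oneA : (1 : W N r) ∈ A := by
    rw [memA]
    exact ⟨1, onePA, 0, hm, by simp⟩
  have oneB : (1 : W N r) ∈ B := by rw [memB]; exact Or.inr ⟨1, one_h0⟩
  -- the cardinality of `A`
  have cardA : A.card = m * P.card := by
    have hinj : ∀ p : W N r × ℕ, p ∈ ((P ×ˢ Finset.range m : Finset (W N r × ℕ)) : Set (W N r × ℕ)) →
        ∀ p' : W N r × ℕ, p' ∈ ((P ×ˢ Finset.range m : Finset (W N r × ℕ)) : Set (W N r × ℕ)) →
        p.1 * sh N r ^ p.2 = p'.1 * sh N r ^ p'.2 → p = p' := by
      intro p hp p' hp' he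
      obtain ⟨h1, h2⟩ := Finset.mem_product.mp (Finset.mem_coe.mp hp)
      obtain ⟨h1', h2'⟩ := Finset.mem_product.mp (Finset.mem_coe.mp hp')
      have hr := congrArg (fun z : W N r => z.right) he
      rw [sh_pow, sh_pow] at hr
      simp only [RegularWreathProduct.mul_right, ((memP _).mp h1).1, ((memP _).mp h1').1,
        one_mul] at hr
      have e : p.2 = p'.2 := t_pow_inj r (by
        have := Finset.mem_range.mp h2
        omega) (by
        have := Finset.mem_range.mp h2'
        omega) hr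
      rw [e] at he
      exact Prod.ext (mul_right_cancel he) e
    have himg : A = (P ×ˢ Finset.range m).image (fun p => p.1 * sh N r ^ p.2) := by
      ext g
      rw [memA, Finset.mem_image]
      constructor
      · rintro ⟨f, hf, i, hi, rfl⟩
        exact ⟨(f, i), Finset.mem_product.mpr ⟨(memP f).mpr hf, Finset.mem_range.mpr hi⟩, rfl⟩
      · rintro ⟨⟨f, i⟩, hp, rfl⟩
        obtain ⟨h1, h2⟩ := Finset.mem_product.mp hp
        exact ⟨f, (memP f).mp h1, i, Finset.mem_range.mp h2, rfl⟩
    rw [himg, Finset.card_image_of_injOn (fun p hp p' hp' he => hinj p hp p' hp' he),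
      Finset.card_product, Finset.card_range, mul_comm]
  -- words of length at most `k`
  have hw : ∀ j ≤ k, ∀ w ∈ B ^ j, ∃ l ≤ j, ∀ i < m, ∃ f : W N r, PA N r f ∧
      sh N r ^ i * w = f * sh N r ^ (i + l) := by
    intro j
    induction j with
    | zero =>
      intro _ w hw
      rw [pow_zero, Finset.mem_one] at hw
      exact ⟨0, le_rfl, fun i _ => ⟨1, onePA, by simp [hw]⟩⟩
    | succ j ih =>
      intro hj w hw
      rw [pow_succ] at hw
      obtain ⟨w', hw', b, hb, rfl⟩ := Finset.mem_mul.mp hw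
      obtain ⟨l, hl, hf⟩ := ih (by omega) w' hw'
      rcases (memB b).mp hb with rfl | ⟨d, rfl⟩
      · refine ⟨l + 1, by omega, fun i hi => ?_⟩
        obtain ⟨f, hf, he'⟩ := hf i hi
        refine ⟨f, hf, ?_⟩
        rw [← mul_assoc, he', mul_assoc, ← pow_succ]
        rfl
      · refine ⟨l, by omega, fun i hi => ?_⟩
        obtain ⟨f, hf, he'⟩ := hf i hi
        obtain ⟨f', hf', he⟩ := conj_h0 N r (i + l) (by omega) d
        refine ⟨f * f', PA_mul N r f f' hf hf', ?_⟩
        rw [← mul_assoc, he', mul_assoc, he, ← mul_assoc]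
  refine ⟨W N r, inferInstance, inferInstance, inferInstance, A, B, ⟨1, oneA⟩, oneB, ?_, ?_⟩
  · intro j hj w hwj
    obtain ⟨l, hl, hf⟩ := hw j hj w hwj
    have hsub : A * {w} * B ⊆ P * (Finset.range (m + 1)).image (fun i => sh N r ^ (i + l)) := by
      intro z hz
      obtain ⟨a', ha', b, hb, rfl⟩ := Finset.mem_mul.mp hz
      obtain ⟨a, ha, s, hs, rfl⟩ := Finset.mem_mul.mp ha'
      rw [Finset.mem_singleton] at hs
      subst hs
      obtain ⟨g, hg, i, hi, rfl⟩ := (memA a).mp ha
      obtain ⟨f, hf1, he⟩ := hf i hi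
      have e7 : g * sh N r ^ i * s = g * f * sh N r ^ (i + l) := by
        rw [mul_assoc g, he, ← mul_assoc]
      rcases (memB b).mp hb with rfl | ⟨d, rfl⟩
      · refine Finset.mem_mul.mpr ⟨g * f, (memP _).mpr (PA_mul N r _ _ hg hf1), sh N r ^ (i + 1 + l),
          Finset.mem_image.mpr ⟨i + 1, Finset.mem_range.mpr (by omega), rfl⟩, ?_⟩
        have e : i + 1 + l = i + l + 1 := by omega
        rw [e7, e, pow_succ, ← mul_assoc]
      · obtain ⟨f', hf', he2⟩ := conj_h0 N r (i + l) (by omega) d
        refine Finset.mem_mul.mpr ⟨g * f * f', (memP _).mpr (PA_mul N r _ _ (PA_mul N r _ _ hg hf1) hf'),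
          sh N r ^ (i + l), Finset.mem_image.mpr ⟨i, Finset.mem_range.mpr (by omega), rfl⟩, ?_⟩
        rw [e7, mul_assoc (g * f) (sh N r ^ (i + l)), he2, ← mul_assoc]
    have hc : (A * {w} * B).card ≤ (m + 1) * P.card := by
      calc (A * {w} * B).card
          ≤ (P * (Finset.range (m + 1)).image (fun i => sh N r ^ (i + l))).card :=
            Finset.card_le_card hsub
        _ ≤ P.card * ((Finset.range (m + 1)).image (fun i => sh N r ^ (i + l))).card :=
            Finset.card_mul_le
        _ ≤ P.card * (m + 1) := by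
            refine Nat.mul_le_mul_left _ ?_
            exact Finset.card_image_le.trans (Finset.card_range _).le
        _ = (m + 1) * P.card := mul_comm _ _
    calc m * (A * {w} * B).card ≤ m * ((m + 1) * P.card) := Nat.mul_le_mul_left _ hc
      _ = (m + 1) * A.card := by rw [cardA]; ring
  · intro h hh X hXA
    have hlow : ∀ i < m, (X.filter fun x => ∃ f, PA N r f ∧ x = f * sh N r ^ i).card * N ≤
        (X * B ^ h).card := by
      intro i hi
      have hcard : (X.filter fun x => ∃ f, PA N r f ∧ x = f * sh N r ^ i).card * N =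
          ((X.filter fun x => ∃ f, PA N r f ∧ x = f * sh N r ^ i) ×ˢ
            (Finset.univ : Finset (D N))).card := by
        rw [Finset.card_product, Finset.card_univ]
        congr 1
        have h1 : Fintype.card (D N) = Fintype.card (ZMod N) :=
          Fintype.card_congr Multiplicative.toAdd
        rw [h1, ZMod.card]
      rw [hcard]
      apply Finset.card_le_card_of_injOn
        (fun p : W N r × D N => p.1 * (sh N r ^ (r - i) * h0 N r p.2))
      · intro p hp
        have hp' : p.1 ∈ X :=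
          (Finset.mem_filter.mp (Finset.mem_product.mp (Finset.mem_coe.mp hp)).1).1
        apply Finset.mem_coe.mpr
        refine Finset.mul_mem_mul hp' ?_
        have e1 : B ^ (r - i + 1) = B ^ (r - i) * B := pow_succ B (r - i)
        refine Finset.pow_subset_pow_right oneB (show r - i + 1 ≤ h by omega) ?_
        rw [e1]
        exact Finset.mul_mem_mul (Finset.pow_mem_pow ((memB _).mpr (Or.inl rfl)))
          ((memB _).mpr (Or.inr ⟨p.2, rfl⟩))
      · intro p hp p' hp' he
        obtain ⟨f, hf, e1⟩ :=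
          (Finset.mem_filter.mp (Finset.mem_product.mp (Finset.mem_coe.mp hp)).1).2
        obtain ⟨f', hf', e1'⟩ :=
          (Finset.mem_filter.mp (Finset.mem_product.mp (Finset.mem_coe.mp hp')).1).2
        simp only at he
        have e3 : ∀ (g : W N r) (d : D N), g * sh N r ^ i * (sh N r ^ (r - i) * h0 N r d) =
            g * (sh N r ^ r * h0 N r d) := by
          intro g d
          have e4 : sh N r ^ i * sh N r ^ (r - i) = sh N r ^ r := by
            rw [← pow_add]
            congr 1
            omega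
          rw [mul_assoc g, ← mul_assoc (sh N r ^ i), e4]
        rw [e1, e1', e3, e3] at he
        obtain ⟨e5, e6⟩ := key_inj N r f f' p.2 p'.2 hf hf' he
        refine Prod.ext ?_ e6
        rw [e1, e1', e5]
    have hcov : X.card ≤ ∑ i ∈ Finset.range m,
        (X.filter fun x => ∃ f, PA N r f ∧ x = f * sh N r ^ i).card := by
      refine (Finset.card_le_card ?_).trans Finset.card_biUnion_le
      intro x hx
      obtain ⟨f, hf, i, hi, e⟩ := (memA x).mp (hXA hx)
      exact Finset.mem_biUnion.mpr ⟨i, Finset.mem_range.mpr hi, Finset.mem_filter.mpr ⟨hx, f, hf, e⟩⟩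
    have hsum : X.card * N ≤ m * (X * B ^ h).card := by
      calc X.card * N ≤ (∑ i ∈ Finset.range m,
          (X.filter fun x => ∃ f, PA N r f ∧ x = f * sh N r ^ i).card) * N :=
            Nat.mul_le_mul_right _ hcov
        _ = ∑ i ∈ Finset.range m,
          (X.filter fun x => ∃ f, PA N r f ∧ x = f * sh N r ^ i).card * N := Finset.sum_mul _ _ _
        _ ≤ ∑ _i ∈ Finset.range m, (X * B ^ h).card :=
            Finset.sum_le_sum fun i hi => hlow i (Finset.mem_range.mp hi)
        _ = m * (X * B ^ h).card := by rw [Finset.sum_const, Finset.card_range, smul_eq_mul]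
    have h2 : m * (K * X.card) ≤ m * (X * B ^ h).card := by
      refine le_trans ?_ hsum
      show m * (K * X.card) ≤ X.card * (m * K + 1)
      nlinarith [X.card.zero_le]
    exact Nat.le_of_mul_le_mul_left h2 hm

/-- For every `k`, every `m ≥ 1`, every `h ≥ m + k + 1`, every real `c` and every real
`α > 1 + 1 / m` there are a finite group and finite nonempty subsets `A`, `B` such that
`|AB| < α |A|` and `|A w B| ≤ α |A|` for all products `w` of at most `k` elements of `B`, but
`|X B^h| > α^(c h) |X|` for every nonempty `X ⊆ A`. For `k = 1` this is the negative answer to the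
question, for every `α > 1`. -/
theorem result (k m h : ℕ) (hm : 1 ≤ m) (hh : m + k + 1 ≤ h) (c α : ℝ) (hα : 1 + 1 / (m : ℝ) < α) :
    ∃ (G : Type) (_ : Group G) (_ : Finite G) (_ : DecidableEq G) (A B : Finset G),
      A.Nonempty ∧ B.Nonempty ∧
      ((A * B).card : ℝ) < α * (A.card : ℝ) ∧
      (∀ j ≤ k, ∀ w ∈ B ^ j, ((A * {w} * B).card : ℝ) ≤ α * (A.card : ℝ)) ∧
      ∀ X : Finset G, X ⊆ A → X.Nonempty →
        α ^ (c * (h : ℝ)) * (X.card : ℝ) < ((X * B ^ h).card : ℝ) := by
  obtain ⟨K, hK⟩ := exists_nat_gt (α ^ (c * (h : ℝ)))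
  obtain ⟨G, iG, iF, iD, A, B, hA, h1, hw, hX⟩ := construction k m K hm
  have hApos : (0 : ℝ) < (A.card : ℝ) := by exact_mod_cast Finset.card_pos.mpr hA
  have hm0 : (0 : ℝ) < (m : ℝ) := by exact_mod_cast hm
  have key : ∀ j ≤ k, ∀ w ∈ B ^ j, ((A * {w} * B).card : ℝ) < α * (A.card : ℝ) := by
    intro j hj w hwj
    have h2 : (m : ℝ) * ((A * {w} * B).card : ℝ) ≤ ((m : ℝ) + 1) * (A.card : ℝ) := by
      exact_mod_cast hw j hj w hwj
    have h3 : ((A * {w} * B).card : ℝ) ≤ (1 + 1 / (m : ℝ)) * (A.card : ℝ) := by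
      have h4 : (1 + 1 / (m : ℝ)) * (A.card : ℝ) = ((m : ℝ) + 1) * (A.card : ℝ) / m := by
        field_simp
      rw [h4, le_div_iff₀ hm0]
      linarith
    exact h3.trans_lt (mul_lt_mul_of_pos_right hα hApos)
  refine ⟨G, iG, iF, iD, A, B, hA, ⟨1, h1⟩, ?_, fun j hj w hwj => (key j hj w hwj).le, ?_⟩
  · have h2 := key 0 (Nat.zero_le _) 1 (by simp)
    have h3 : A * {(1 : G)} * B = A * B := by
      rw [Finset.singleton_one, mul_one]
    rwa [h3] at h2
  · intro X hXA hXne
    have hXpos : (0 : ℝ) < (X.card : ℝ) := by exact_mod_cast Finset.card_pos.mpr hXne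
    have h2 := hX h hh X hXA
    have h4 : (K : ℝ) * (X.card : ℝ) ≤ ((X * B ^ h).card : ℝ) := by exact_mod_cast h2
    nlinarith

end Pool.Agent.Results.MP_c21415_co.EveryAlpha
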